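import Pool.Agent.K9h27.HG.Mat
import Pool.Agent.K9h27.HG.AlgSet
import Pool.Agent.K9h27.HG.Sharp

/-!
# The number of zeros of block-affine polynomials at logarithms of primes, and cover numbers

Let `w 0, …, w (N-1)` be linear forms in logarithms of algebraic numbers, with algebraic
coefficients, such that `1, w 0, …, w (N-1)` are linearly independent over the algebraic numbers;
by Baker's theorem the numbers `log p_k`, and also `log p_k + α_k`, are such, for distinct primes
`p_k` and algebraic `α_k`.

Consider a system `S` of polynomials `P` with complex coefficients in `D` blocks of `n` variables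
`x_{d,0}, …, x_{d,n-1}`, which have degree at most one in each block: `P = ∑_k c_k ∏_d x_{d, k d}`,
where `k d` is one of the `n` indices or `none`, and `x_{d, none} = 1`. Let `m = D`, or `m = D - 1` if
all coefficients are algebraic. A monomial of `P` is called a top monomial if all those of the first
`m` blocks which occur in `P` occur in it. Let `t` be the cover number: each set of variables of the
first `m` blocks which meets all top monomials of all `P` in `S` has at least `t` elements. Then the
number of the common zeros with entries among the `w k`, distinct in each block, is at most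

`C N ^ (D n - t)`,

where `C` depends only on `n` and `D` (neither on the coefficients nor on the `w k`). The trivial
bound for one polynomial is `C N ^ (D n - 1)`.

The exponent is optimal: if `D, n ≥ 2` then the polynomial with integral coefficients
`(∑_{i<j} (x_{0,i} x_{1,j} - x_{0,j} x_{1,i})) ∏_{d ≥ 2} (∑_i x_{d,i})` has the cover number `t = n` and
vanishes if the first two blocks are equal, so it has at least `(N (N - 1) ⋯ (N - n + 1)) ^ (D - 1)`
such zeros. (Another example is the determinant, `D = n`, where the blocks are the columns.) Examples,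
with arbitrary lower terms:

* a linear equation with `n` nonzero complex coefficients has at most `C` solutions (`D = 1`,
  `t = n`);
* a `D`-linear equation with `n ^ D` nonzero complex coefficients has at most `C N ^ ((D - 1) n)`
  solutions (`t = n`);
* for a bilinear equation `t` is the maximal number of nonzero coefficients in different rows and
  columns of the matrix of the coefficients (König's theorem);
* an equation `P (x, y) = 0` which is affine in `x = (x_1, …, x_n)` and in `y = (y_1, …, y_n)`, with
  algebraic coefficients, and which contains all the `x_i`, has at most `C N ^ n` solutions (`D = 2`,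
  `m = 1`, `t = n`);
* the determinant, the permanent, and all functions `∑_σ c_σ ∏_d z_{d, σ d}` with `c_σ ≠ 0` take each
  complex value at most `C N ^ (n ^ 2 - n)` times at the `n × n` matrices with entries among the
  `w k`, distinct in each column (`Pool.Agent.K9h27.HG.up_mfun`).

The proof: for given values of all the other blocks the system becomes a system of linear equations
for the first block. By the hyperplane case of the linear subgroup theorem of Waldschmidt and Roy
(starting library `Pool.Agent.W254.HP`), which bounds the number of linearly independent relations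
with coefficients in a space of finite dimension over the algebraic numbers, the variables which
really occur in these equations have boundedly many values; the vanishing of the coefficients of the
other ones is a system with `D - 1` blocks. For algebraic coefficients the last system, with one
block, has no solutions, by Baker's theorem.
-/

set_option autoImplicit false

namespace Pool.Agent.Results.MP_d171e3_nt.CoverNumber

/-- The numbers `b₀ + b₁ l₁ + ⋯ + b_k l_k` with `b₀, …, b_k` and `exp l₁, …, exp l_k` algebraic. -/
noncomputable def LinForms : Submodule (algebraicClosure ℚ ℂ) ℂ :=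
  Submodule.span (algebraicClosure ℚ ℂ) ({1} ∪ {z : ℂ | IsAlgebraic ℚ (Complex.exp z)})

/-- The `w k` are linear forms in logarithms, and `1` and the `w k` are linearly independent over
the field of the algebraic numbers. -/
def Indep {N : ℕ} (w : Fin N → ℂ) : Prop :=
  (∀ k, w k ∈ LinForms) ∧
    LinearIndependent (algebraicClosure ℚ ℂ) (fun o : Option (Fin N) => o.elim (1 : ℂ) w)

/-- The value of the polynomial `∑_k c_k ∏_d x_{d, k d}`, where `x_{d, none} = 1`, at
`x_{d,i} = w (f d i)`. -/
noncomputable def value {D n N : ℕ} (w : Fin N → ℂ) (c : (Fin D → Option (Fin n)) → ℂ)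
    (f : Fin D → Fin n → Fin N) : ℂ :=
  ∑ k : Fin D → Option (Fin n), c k * ∏ d, (k d).elim 1 (fun i => w (f d i))

/-- The monomial `k` occurs in the polynomial with the coefficients `c`, and all those of the first
`m` blocks which occur in the polynomial occur in the monomial `k`. -/
def IsTop {D n : ℕ} (m : ℕ) (c : (Fin D → Option (Fin n)) → ℂ) (k : Fin D → Option (Fin n)) :
    Prop :=
  c k ≠ 0 ∧ ∀ d : Fin D, (d : ℕ) < m → (∃ k', c k' ≠ 0 ∧ k' d ≠ none) → k d ≠ none

/-- The set `V` of variables of the first `m` blocks meets all top monomials of the polynomials of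
`S`. -/
def Meets {D n : ℕ} (m : ℕ) (V : Finset (Fin D × Fin n))
    (S : Set ((Fin D → Option (Fin n)) → ℂ)) : Prop :=
  (∀ p ∈ V, (p.1 : ℕ) < m) ∧ ∀ c ∈ S, ∀ k, IsTop m c k → ∃ d i, k d = some i ∧ (d, i) ∈ V

/-- The common zeros of the polynomials of `S` with entries among the `w k`, distinct in each
block. -/
def Zeros {D n N : ℕ} (w : Fin N → ℂ) (S : Set ((Fin D → Option (Fin n)) → ℂ)) :
    Set (Fin D → Fin n → Fin N) :=
  {f | (∀ d, Function.Injective (f d)) ∧ ∀ c ∈ S, value w c f = 0}

/-- The constant. -/
def C (n D : ℕ) : ℕ := (2 ^ n * (((n + 1) ^ 2 * n + 1) ^ (n + 1)) ^ n) ^ D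

theorem top_iff {D n : ℕ} (c : (Fin D → Option (Fin n)) → ℂ) (k : Fin D → Option (Fin n)) :
    Pool.Agent.K9h27.HG.Top c k → IsTop D c k := by
  rintro ⟨h1, h2⟩
  refine ⟨h1, ?_⟩
  rintro d - ⟨k', hk', hd⟩ h3
  exact hd (h2 k' hk' d h3)

theorem of_top {D n : ℕ} (c : (Fin D → Option (Fin n)) → ℂ) (k : Fin D → Option (Fin n)) :
    IsTop D c k → Pool.Agent.K9h27.HG.Top c k := by
  rintro ⟨h1, h2⟩
  refine ⟨h1, ?_⟩
  intro k' hk' d hd
  by_contra h3
  exact h2 d d.2 ⟨k', hk', h3⟩ hd

theorem of_topA {D n : ℕ} (c : (Fin (D + 1) → Option (Fin n)) → ℂ)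
    (k : Fin (D + 1) → Option (Fin n)) : IsTop D c k → Pool.Agent.K9h27.HG.TopA c k := by
  rintro ⟨h1, h2⟩
  refine ⟨h1, ?_⟩
  intro k' hk' d hdl hd
  by_contra h3
  refine h2 d ?_ ⟨k', hk', h3⟩ hd
  have h4 := d.2
  have h5 : (d : ℕ) ≠ D := fun h => hdl (Fin.ext (by rw [h, Fin.val_last]))
  omega

theorem result :
    (∀ (N : ℕ) (p : Fin N → ℕ) (α : Fin N → ℂ), (∀ k, (p k).Prime) → Function.Injective p →
      (∀ k, IsAlgebraic ℚ (α k)) → Indep fun k => ((Real.log (p k) : ℝ) : ℂ) + α k) ∧
    ∀ (n N : ℕ) (w : Fin N → ℂ), 0 < n → Indep w →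
      (∀ (D m : ℕ) (S : Set ((Fin D → Option (Fin n)) → ℂ)) (t : ℕ), 0 < D →
        (m = D ∨ (m + 1 = D ∧ ∀ c ∈ S, ∀ k, IsAlgebraic ℚ (c k))) →
        (∀ V, Meets m V S → t ≤ V.card) → (Zeros w S).ncard ≤ C n D * N ^ (D * n - t)) ∧
      (∀ D : ℕ, 2 ≤ D → 2 ≤ n → ∃ c : (Fin D → Option (Fin n)) → ℤ,
        (∀ V, Meets D V {fun k => (c k : ℂ)} → n ≤ V.card) ∧
        N.descFactorial n ^ (D - 1) ≤ (Zeros w {fun k => (c k : ℂ)}).ncard) := by
  refine ⟨fun _ p α hp hinj hα => Pool.Agent.K9h27.RB.primes_indep p hp hinj α hα, ?_⟩
  intro n N w hn hw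
  refine ⟨?_, ?_⟩
  · rintro D m S t hD (rfl | ⟨rfl, hS⟩) ht
    · refine Pool.Agent.K9h27.HG.up_cover hn hD w hw.2 hw.1 S t ?_
      intro V hV
      refine ht V ⟨fun p _ => p.1.2, ?_⟩
      intro c hc k hk
      exact hV c hc k (of_top c k hk)
    · refine Pool.Agent.K9h27.HG.up_coverA hn w hw.2 hw.1 S hS t ?_
      intro V hV
      refine ht V ⟨?_, ?_⟩
      · intro p hp
        have h4 := p.1.2
        have h5 : (p.1 : ℕ) ≠ m := fun h => hV.1 p hp (Fin.ext (by rw [h, Fin.val_last]))
        omega
      · intro c hc k hk
        exact hV.2 c hc k (of_topA c k hk)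
  · intro D hD hn2
    refine ⟨Pool.Agent.K9h27.HG.exc (⟨0, by omega⟩ : Fin D) ⟨1, by omega⟩, ?_, ?_⟩
    · intro V hV
      refine Pool.Agent.K9h27.HG.exc_cover hn2 (⟨0, by omega⟩ : Fin D) ⟨1, by omega⟩
        (by simp) V ?_
      intro c' hc' k hk
      exact hV.2 c' hc' k (top_iff c' k hk)
    · refine (Pool.Agent.K9h27.HG.exc_many hD w).trans (le_of_eq ?_)
      congr 1
      ext f
      constructor
      · rintro ⟨h2, h3⟩
        refine ⟨h2, ?_⟩
        rintro c' rfl
        exact h3
      · rintro ⟨h2, h3⟩
        exact ⟨h2, h3 _ rfl⟩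

end Pool.Agent.Results.MP_d171e3_nt.CoverNumber
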