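import Pool.Agent.K9h57.LC.Final

/-!
# The degree of the variety on which a point with coordinates in `𝓛` lies

Let `k` be the field of algebraic numbers and let `𝓛` be the space of all linear combinations, with
coefficients in `k`, of `1` and of logarithms of algebraic numbers. Let `l_0, …, l_n ∈ 𝓛` be linearly
independent over `k` (for example `1, log p_1, …, log p_n`), and let `W` be the smallest algebraic
subset of projective space, defined over `k`, which contains the point `(l_0 : … : l_n)`. Let `t` be
the dimension and `D` the degree of `W`. We show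

`t D + t (t - 1) / 2 ≥ ⌊(n + 1) ^ 2 / 4⌋`.

In particular (`t = 1`) an irreducible algebraic curve of degree `< ⌊(n + 1) ^ 2 / 4⌋` in projective
`n`-space, defined over `k` and not contained in a hyperplane, has no point outside `ℙⁿ(k)` with
coordinates in `𝓛`; for `n = 3` (the twisted cubic curve and all curves of degree at most three) this is
contained in the strong six exponentials theorem. In the theorem `W` is described by a Noether
normalisation: there are linear combinations `u_1, …, u_t`, with integral coefficients, of the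
`x_i = l_i / l_0` which are algebraically independent over `k`, every `x_i` is a zero of a monic
polynomial `X ^ e + a_1 X ^ (e - 1) + ⋯ + a_e` with `a_j ∈ k[u_1, …, u_t]` of degree at most `j`, so that
the projection `(1 : u_1 : … : u_t)` of `W` to `ℙᵗ` is finite, and `D = [k(x_1, …, x_n) : k(u_1, …, u_t)]`.

Proof: let `U_m` be the space of the elements of `k(x_1, …, x_n)` which are zeros of a monic polynomial
`X ^ e + a_1 X ^ (e - 1) + ⋯ + a_e` with `a_j ∈ k[u]` of degree at most `m j`. By the hyperplane case of
the linear subgroup theorem (starting library `Pool.Agent.TH379.HF`) `dim U_2 - dim U_1` is at least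
`⌊(n + 1) ^ 2 / 4⌋`. On the other hand `U_(m + 1) / u_1 U_m` is linearly independent over `k(u_1)`
(Gauss' lemma for the degrees), and by induction this gives upper bounds for the dimension of `U_m`;
here `u_1` is chosen in such a way that `k(u_1)` is algebraically closed in `k(x_1, …, x_n)` (a form of
Bertini's theorem, by Zariski's argument).
-/

set_option autoImplicit false

namespace Pool.Agent.Results.MP_d171e3_nt.DegreeOfTheLocus

open Module IntermediateField
open Pool.Agent.K9h57.LC

/-- The space of all linear combinations, with algebraic coefficients, of `1` and of logarithms of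
algebraic numbers. -/
noncomputable def LinForms : Submodule (algebraicClosure ℚ ℂ) ℂ :=
  Submodule.span (algebraicClosure ℚ ℂ) ({1} ∪ {z : ℂ | IsAlgebraic ℚ (Complex.exp z)})

/-- `LocusBound x N` says that `N ≤ t D + t (t - 1) / 2`, where `t` and `D` are the dimension and the
degree of the smallest algebraic set which is defined over the field `k` of algebraic numbers and
contains the point `x`; precisely: there are linear combinations `u_1, …, u_t` of the coordinates
with integral coefficients which are algebraically independent over `k`, every coordinate is a zero of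
a monic polynomial `q` over `k[u_1, …, u_t]` whose coefficient of `X ^ j` has degree at most `deg q - j`
in the `u_i`, and `N ≤ t [k(x) : k(u)] + t (t - 1) / 2`. -/
def LocusBound {n : ℕ} (x : Fin n → ℂ) (N : ℕ) : Prop :=
  ∃ (t : ℕ) (c : Fin t → Fin n → ℤ),
    AlgebraicIndependent (algebraicClosure ℚ ℂ) (fun j => ∑ i, (c j i : ℂ) * x i) ∧
    (∀ i : Fin n, ∃ q : Polynomial (MvPolynomial (Fin t) (algebraicClosure ℚ ℂ)), q.Monic ∧
      (∀ j, (q.coeff j).totalDegree ≤ q.natDegree - j) ∧
      q.eval₂ (MvPolynomial.aeval (fun j => ∑ i, (c j i : ℂ) * x i) :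
        MvPolynomial (Fin t) (algebraicClosure ℚ ℂ) →ₐ[algebraicClosure ℚ ℂ] ℂ).toRingHom
        (x i) = 0) ∧
    N ≤ t * relfinrank
      (adjoin (algebraicClosure ℚ ℂ) (Set.range fun j => ∑ i, (c j i : ℂ) * x i))
      (adjoin (algebraicClosure ℚ ℂ) (Set.range x)) + t.choose 2

theorem locusBound {n : ℕ} (l : Fin (n + 1) → ℂ) (hl : ∀ i, l i ∈ LinForms)
    (hli : LinearIndependent (algebraicClosure ℚ ℂ) l) :
    LocusBound (fun i : Fin n => l i.succ / l 0) ((n + 1) ^ 2 / 4) := by
  obtain ⟨t, c, h1, h2, h3⟩ := locus l hl hli
  refine ⟨t, c, h1, fun i => ?_, h3⟩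
  obtain ⟨q, hq, hd, h0⟩ := (Bd_iff _ 1 _).mp (h2 i)
  exact ⟨q, hq, fun j => by have := hd j; rwa [one_mul] at this, h0⟩

theorem primes {n : ℕ} (p : Fin n → ℕ) (hp : ∀ i, (p i).Prime) (hinj : Function.Injective p) :
    (∀ i, (Fin.cons 1 (fun i => ((Real.log (p i) : ℝ) : ℂ)) : Fin (n + 1) → ℂ) i ∈ LinForms) ∧
      LinearIndependent (algebraicClosure ℚ ℂ)
        (Fin.cons 1 (fun i => ((Real.log (p i) : ℝ) : ℂ)) : Fin (n + 1) → ℂ) := by
  have halg : ∀ i, IsAlgebraic ℚ (Complex.exp ((Real.log (p i) : ℝ) : ℂ)) := by
    intro i
    have hpos := (hp i).pos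
    rw [← Complex.ofReal_exp, Real.exp_log (by exact_mod_cast hpos)]
    exact_mod_cast isAlgebraic_algebraMap (R := ℚ) (A := ℂ) ((p i : ℕ) : ℚ)
  refine ⟨fun i => ?_, ?_⟩
  · refine Fin.cases ?_ (fun i => ?_) i
    · exact Submodule.subset_span (Or.inl rfl)
    · exact Submodule.subset_span (Or.inr (halg i))
  · have h1 := Pool.Agent.TH379.HF.finrank_VV (fun i => ((Real.log (p i) : ℝ) : ℂ)) halg
      (Pool.Agent.H297R2.linearIndependent_log_prime p hp hinj)
    rw [linearIndependent_iff_card_eq_finrank_span, Fintype.card_fin, Set.finrank,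
      Fin.range_cons, ← Set.singleton_union]
    exact h1.symm

/-- **Main result.** -/
theorem result :
    -- `n + 1` linear forms in logarithms which are linearly independent
    (∀ (n : ℕ) (l : Fin (n + 1) → ℂ), (∀ i, l i ∈ LinForms) →
      LinearIndependent (algebraicClosure ℚ ℂ) l →
      LocusBound (fun i : Fin n => l i.succ / l 0) ((n + 1) ^ 2 / 4)) ∧
    -- logarithms of prime numbers
    (∀ (n : ℕ) (p : Fin n → ℕ), (∀ i, (p i).Prime) → Function.Injective p →
      LocusBound (fun i => ((Real.log (p i) : ℝ) : ℂ)) ((n + 1) ^ 2 / 4)) := by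
  refine ⟨fun n l hl hli => locusBound l hl hli, fun n p hp hinj => ?_⟩
  obtain ⟨h1, h2⟩ := primes p hp hinj
  have h3 := locusBound _ h1 h2
  simpa only [Fin.cons_succ, Fin.cons_zero, div_one] using h3

end Pool.Agent.Results.MP_d171e3_nt.DegreeOfTheLocus
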