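import Pool.Agent.K9h57.LC.Multi

/-!
# Logarithms in a field of transcendence degree one: multidegrees of curves

Let `k` be the field of algebraic numbers, `𝓛` the space of all linear combinations, with
coefficients in `k`, of `1` and of logarithms of algebraic numbers, and let `l_0, …, l_n ∈ 𝓛` be linearly
independent over `k`. Let `K ⊆ ℂ` be a field which contains `k` and the quotients `x_i = l_i / l_0`, and let
`y_1, …, y_m ∈ K` be such that every `x_i` is a zero of a monic polynomial
`X ^ e + a_1 X ^ (e - 1) + ⋯ + a_e` with `a_j ∈ k[y_1, …, y_m]` of degree at most `j` in each of the `y`'s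
(the poles of the `x_i` are bounded by those of the product of the `y_j`). Then

`[K : k(y_1)] + ⋯ + [K : k(y_m)] ≥ ⌊(n + 1) ^ 2 / 4⌋`.

(This is of interest if `K` has transcendence degree one; then `(y_1, …, y_m)` is a point of a curve in
`(ℙ¹)^m` and the degrees are its multidegrees. If one of them is infinite there is nothing to prove.)
For `l_0 = 1`, `m = n` and `y = x` this is the starting result `MP_60829e_nt/FieldDegrees`; here the `x_i`
need not be linear forms in logarithms themselves (only quotients of such forms), and the number `m` of
the `y_j`, which are arbitrary elements of `K`, has nothing to do with `n`.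

Proof: for a weight `w`, which attaches a complex number to each valuation ring of `ℂ`, let `M(w)` be
the space of all `g ∈ K` with `g w(O) ∈ O` for all valuation rings `O` of `ℂ` which contain `k`. The
weight of `y_j` is `1` or `1 / y_j`. When the weight is multiplied by the weight of `y_j`, the dimension of
`M(w)` increases by at most `[K : k(y_j)]`. If `w` is the product of the weights of the `y_j` then
`x_i M(w) ⊆ M(w ^ 2)`, and by the hyperplane case of the linear subgroup theorem (starting library
`Pool.Agent.TH379.HF`) the dimension of `M(w ^ 2)` exceeds that of `M(w)` by at least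
`⌊(n + 1) ^ 2 / 4⌋`.
-/

set_option autoImplicit false

namespace Pool.Agent.Results.MP_d171e3_nt.MultidegreesOfCurves

open Module IntermediateField
open Pool.Agent.K9h57.LC

/-- The space of all linear combinations, with algebraic coefficients, of `1` and of logarithms of
algebraic numbers. -/
noncomputable def LinForms : Submodule (algebraicClosure ℚ ℂ) ℂ :=
  Submodule.span (algebraicClosure ℚ ℂ) ({1} ∪ {z : ℂ | IsAlgebraic ℚ (Complex.exp z)})

/-- `x` is a zero of a monic polynomial `q` over `k[y_1, …, y_m]`, `k` the field of algebraic numbers,
such that the coefficient of `X ^ a` has degree at most `deg q - a` in each of the `y`'s. -/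
def MultiIntegral {m : ℕ} (y : Fin m → ℂ) (x : ℂ) : Prop :=
  ∃ q : Polynomial (MvPolynomial (Fin m) (algebraicClosure ℚ ℂ)), q.Monic ∧
    (∀ a b, (q.coeff a).degreeOf b ≤ q.natDegree - a) ∧
    q.eval₂ (MvPolynomial.aeval y :
      MvPolynomial (Fin m) (algebraicClosure ℚ ℂ) →ₐ[algebraicClosure ℚ ℂ] ℂ).toRingHom x = 0

/-- **Main result.** -/
theorem result (n : ℕ) (l : Fin (n + 1) → ℂ) (hl : ∀ i, l i ∈ LinForms)
    (hli : LinearIndependent (algebraicClosure ℚ ℂ) l)
    -- a field which contains the quotients
    (K : IntermediateField (algebraicClosure ℚ ℂ) ℂ) (hK : ∀ i : Fin n, l i.succ / l 0 ∈ K)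
    -- elements of the field which bound the quotients
    (m : ℕ) (y : Fin m → ℂ) (hy : ∀ j, y j ∈ K) (h : ∀ i : Fin n, MultiIntegral y (l i.succ / l 0)) :
    (((n + 1) ^ 2 / 4 : ℕ) : Cardinal) ≤
      ∑ j : Fin m, relrank (adjoin (algebraicClosure ℚ ℂ) {y j}) K :=
  multi_degrees l hl hli K hK y hy h

end Pool.Agent.Results.MP_d171e3_nt.MultidegreesOfCurves
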