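import Pool.Agent.K9h57.LC.Sumset

/-!
# Logarithms which are combinations of the values of a character on a set with small sumsets

Let `k` be the field of algebraic numbers and `𝓛` the space of all linear combinations, with
coefficients in `k`, of `1` and of logarithms of algebraic numbers. Let `G` be a commutative monoid with
cancellation, written additively, `χ : G → ℂ` a function with `χ(a + b) = χ(a) χ(b)`, and `A`, `B` finite
subsets of `G`. We show: if `l_1, …, l_n ∈ 𝓛` are linearly independent over `k` and the multiples `c l_i`,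
with a complex number `c ≠ 0`, are linear combinations of the `χ(a)`, `a ∈ A`, with coefficients in `k`,
then

`|A + B| ≥ |B| + ⌊n ^ 2 / 4⌋`

for every `B` such that the `χ(b)`, `b ∈ B`, span a space of dimension at least `(n - 1) / 2`, for example for
`B = A`. For the logarithms of the primes of a finite set `S` we get (if `0 ∈ A` and `χ(0) = 1`) the same
with `n = |S| + 1`: if `|A + A| ≤ K |A|` then at most `2 √((K - 1) |A|)` logarithms of primes are
combinations of the numbers `χ(a)`, `a ∈ A`, and not `|A|`. Examples are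

* `G = ℂ`, `χ = exp`: the `log p` are exponential sums `∑ c_a e ^ a` with algebraic coefficients and with
  complex frequencies `a ∈ A`;
* `G = ℕ^t`, `χ(a) = θ ^ a`: the `log p` are values `P_p(θ)` at one point `θ ∈ ℂ^t` of polynomials over `k`
  all of whose exponents are in `A`.

Proof: for `U` spanned by the `χ(b)` and `V` by the `l_i` one has `c U V ⊆ span χ(A + B)`, and by the
hyperplane case of the linear subgroup theorem (starting library `Pool.Agent.TH379.HF`) the dimension
of `U V` is at least `dim U + ⌊n ^ 2 / 4⌋`; on the other hand the dimension of `span χ(A + B)` is at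
most `dim U + |A + B| - |B|`.
-/

set_option autoImplicit false

namespace Pool.Agent.Results.MP_d171e3_nt.SmallSumsets

open Module Finset
open scoped Pointwise
open Pool.Agent.K9h57.LC

/-- The space of all linear combinations, with algebraic coefficients, of `1` and of logarithms of
algebraic numbers. -/
noncomputable def LinForms : Submodule (algebraicClosure ℚ ℂ) ℂ :=
  Submodule.span (algebraicClosure ℚ ℂ) ({1} ∪ {z : ℂ | IsAlgebraic ℚ (Complex.exp z)})

/-- The space of all linear combinations, with algebraic coefficients, of the numbers `χ a`,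
`a ∈ A`. -/
noncomputable def Spectrum {G : Type} (χ : G → ℂ) (A : Finset G) :
    Submodule (algebraicClosure ℚ ℂ) ℂ :=
  Submodule.span (algebraicClosure ℚ ℂ) (χ '' (A : Set G))

theorem primes {n : ℕ} (p : Fin n → ℕ) (hp : ∀ i, (p i).Prime) (hinj : Function.Injective p) :
    (∀ i, (Fin.cons 1 (fun i => ((Real.log (p i) : ℝ) : ℂ)) : Fin (n + 1) → ℂ) i ∈ LinForms) ∧
      LinearIndependent (algebraicClosure ℚ ℂ)
        (Fin.cons 1 (fun i => ((Real.log (p i) : ℝ) : ℂ)) : Fin (n + 1) → ℂ) := by
  have halg : ∀ i, IsAlgebraic ℚ (Complex.exp ((Real.log (p i) : ℝ) : ℂ)) := by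
    intro i
    have hpos := (hp i).pos
    rw [← Complex.ofReal_exp, Real.exp_log (by exact_mod_cast hpos)]
    exact_mod_cast isAlgebraic_algebraMap (R := ℚ) (A := ℂ) ((p i : ℕ) : ℚ)
  refine ⟨fun i => ?_, ?_⟩
  · refine Fin.cases ?_ (fun i => ?_) i
    · exact Submodule.subset_span (Or.inl rfl)
    · exact Submodule.subset_span (Or.inr (halg i))
  · have h1 := Pool.Agent.TH379.HF.finrank_VV (fun i => ((Real.log (p i) : ℝ) : ℂ)) halg
      (Pool.Agent.H297R2.linearIndependent_log_prime p hp hinj)
    rw [linearIndependent_iff_card_eq_finrank_span, Fintype.card_fin, Set.finrank,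
      Fin.range_cons, ← Set.singleton_union]
    exact h1.symm

theorem cons_mem {G : Type} [AddCommMonoid G] (χ : G → ℂ) (h0 : χ 0 = 1) (A : Finset G)
    (hA : 0 ∈ A) (S : Finset ℕ) (hS : ∀ p ∈ S, ((Real.log p : ℝ) : ℂ) ∈ Sp χ A)
    (i : Fin (S.card + 1)) :
    (1 : ℂ) * (Fin.cons 1 (fun i : Fin S.card => ((Real.log (S.equivFin.symm i : ℕ) : ℝ) : ℂ)) :
      Fin (S.card + 1) → ℂ) i ∈ Sp χ A := by
  rw [one_mul]
  refine Fin.cases ?_ (fun i => ?_) i
  · rw [Fin.cons_zero]
    exact Submodule.subset_span ⟨0, by exact_mod_cast hA, h0⟩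
  · rw [Fin.cons_succ]
    exact hS _ (S.equivFin.symm i).2

/-- **Main result.** -/
theorem result (G : Type) [AddCommMonoid G] [IsCancelAdd G] [DecidableEq G] (χ : G → ℂ)
    (hχ : ∀ a b, χ (a + b) = χ a * χ b) (A : Finset G) (hA : A.Nonempty) :
    -- linear forms in logarithms
    (∀ (c : ℂ), c ≠ 0 → ∀ (n : ℕ) (l : Fin n → ℂ), (∀ i, l i ∈ LinForms) →
      LinearIndependent (algebraicClosure ℚ ℂ) l → (∀ i, c * l i ∈ Spectrum χ A) →
      (∀ B : Finset G, n ≤ 2 * finrank (algebraicClosure ℚ ℂ) (Spectrum χ B) + 1 →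
        n ^ 2 / 4 + B.card ≤ (A + B).card) ∧
      n ^ 2 / 4 + A.card ≤ (A + A).card) ∧
    -- logarithms of prime numbers
    (0 ∈ A → χ 0 = 1 → ∀ S : Finset ℕ,
      (∀ p ∈ S, p.Prime ∧ ((Real.log p : ℝ) : ℂ) ∈ Spectrum χ A) →
      (∀ B : Finset G, S.card ≤ 2 * finrank (algebraicClosure ℚ ℂ) (Spectrum χ B) →
        (S.card + 1) ^ 2 / 4 + B.card ≤ (A + B).card) ∧
      (S.card + 1) ^ 2 / 4 + A.card ≤ (A + A).card) := by
  classical
  rename_i hdec
  have e : hdec = Classical.decEq G := Subsingleton.elim _ _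
  subst e
  refine ⟨?_, ?_⟩
  · intro c hc n l hl hli h
    exact ⟨fun B hB => sumset χ hχ l hl hli c hc A B hA h hB,
      doubling χ hχ l hl hli c hc A hA h⟩
  · intro h0A h01 S hS
    obtain ⟨h1, h2⟩ := primes (fun j : Fin S.card => (S.equivFin.symm j : ℕ))
      (fun j => (hS _ (S.equivFin.symm j).2).1)
      (fun a b hab => S.equivFin.symm.injective (Subtype.ext hab))
    have hmem := cons_mem χ h01 A h0A S fun p hp => (hS p hp).2
    exact ⟨fun B hB => sumset χ hχ _ h1 h2 1 one_ne_zero A B hA hmem
        (Nat.succ_le_succ hB),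
      doubling χ hχ _ h1 h2 1 one_ne_zero A hA hmem⟩

end Pool.Agent.Results.MP_d171e3_nt.SmallSumsets
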